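import Pool.Agent.Q330.TU.Edge
set_option autoImplicit false

/-!
# Polyhedra with real data: vertices, extreme directions, edges
-/

namespace Pool.Agent.Q330.LV

open Matrix Finset
open Pool.Agent.Q330.TU (Extr exists_extr)

variable {ι : Type} [Fintype ι] {n : ℕ}

/-- the polyhedron `a i x ≤ b i` -/
def Ply (a : ι → Fin n → ℝ) (b : ι → ℝ) : Set (Fin n → ℝ) := {x | ∀ i, a i ⬝ᵥ x ≤ b i}

open Classical in
/-- the tight rows -/
noncomputable def tg (a : ι → Fin n → ℝ) (b : ι → ℝ) (x : Fin n → ℝ) : Finset ι :=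
  Finset.univ.filter fun i => a i ⬝ᵥ x = b i

variable {a : ι → Fin n → ℝ} {b : ι → ℝ} {x y z : Fin n → ℝ}

theorem mem_tg {i : ι} : i ∈ tg a b x ↔ a i ⬝ᵥ x = b i := by
  classical
  simp [tg]

/-- vertices -/
structure Vert (a : ι → Fin n → ℝ) (b : ι → ℝ) (x : Fin n → ℝ) : Prop where
  mem : x ∈ Ply a b
  ker : ∀ h : Fin n → ℝ, (∀ i ∈ tg a b x, a i ⬝ᵥ h = 0) → h = 0

/-- extreme directions at `x` -/
structure Ex (a : ι → Fin n → ℝ) (b : ι → ℝ) (x g : Fin n → ℝ) : Prop where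
  ne : g ≠ 0
  le : ∀ i ∈ tg a b x, a i ⬝ᵥ g ≤ 0
  ext : Extr a (tg a b x) g

theorem ply_sub_le (hz : z ∈ Ply a b) {i : ι} (hi : i ∈ tg a b x) : a i ⬝ᵥ (z - x) ≤ 0 := by
  rw [dotProduct_sub, mem_tg.1 hi]
  linarith [hz i]

/-- if `p` is not maximal at the vertex `x`, it increases on an extreme direction -/
theorem exists_ex (hx : Vert a b x) (hz : z ∈ Ply a b) {p : Fin n → ℝ}
    (hp : p ⬝ᵥ x < p ⬝ᵥ z) : ∃ g, Ex a b x g ∧ 0 < p ⬝ᵥ g := by
  obtain ⟨g, h1, h2, h3⟩ := exists_extr (r := a) (T := tg a b x) hx.ker (p := p) (h := z - x)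
    (fun i hi => ply_sub_le hz hi) (by rw [dotProduct_sub]; linarith)
  refine ⟨g, ⟨?_, h1, h3⟩, h2⟩
  rintro rfl
  rw [dotProduct_zero] at h2
  exact lt_irrefl _ h2

/-- moving in a feasible direction -/
theorem step_dir {h : Fin n → ℝ} (hx : x ∈ Ply a b) (hh : ∀ i ∈ tg a b x, a i ⬝ᵥ h ≤ 0)
    (hex : ∃ i, 0 < a i ⬝ᵥ h) :
    ∃ t : ℝ, 0 < t ∧ x + t • h ∈ Ply a b ∧ ∃ i, 0 < a i ⬝ᵥ h ∧ a i ⬝ᵥ (x + t • h) = b i := by
  classical
  set U := (Finset.univ : Finset ι).filter fun i => 0 < a i ⬝ᵥ h with hU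
  obtain ⟨i0, hi0⟩ := hex
  obtain ⟨i1, hi1, hmin⟩ := Finset.exists_min_image U
    (fun i => (b i - a i ⬝ᵥ x) / (a i ⬝ᵥ h)) ⟨i0, by simp [hU, hi0]⟩
  rw [hU, Finset.mem_filter] at hi1
  have h1 : a i1 ⬝ᵥ x < b i1 := by
    refine lt_of_le_of_ne (hx i1) fun h => ?_
    have := hh i1 (mem_tg.2 h)
    linarith [hi1.2]
  have ht : 0 < (b i1 - a i1 ⬝ᵥ x) / (a i1 ⬝ᵥ h) := div_pos (by linarith) hi1.2
  refine ⟨_, ht, fun i => ?_, i1, hi1.2, ?_⟩
  · rw [dotProduct_add, dotProduct_smul, smul_eq_mul]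
    rcases le_or_gt (a i ⬝ᵥ h) 0 with h2 | h2
    · have := hx i
      have := mul_nonpos_of_nonneg_of_nonpos ht.le h2
      linarith
    · have h3 := hmin i (by simp [hU, h2])
      have h4 := mul_le_mul_of_nonneg_right h3 h2.le
      rw [div_mul_cancel₀ (b i - a i ⬝ᵥ x) h2.ne'] at h4
      linarith
  · rw [dotProduct_add, dotProduct_smul, smul_eq_mul, div_mul_cancel₀ _ hi1.2.ne']
    ring

omit [Fintype ι] in
theorem ply_free {h : Fin n → ℝ} (hx : x ∈ Ply a b) (hh : ∀ i, a i ⬝ᵥ h ≤ 0) {t : ℝ}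
    (ht : 0 ≤ t) : x + t • h ∈ Ply a b := by
  intro i
  rw [dotProduct_add, dotProduct_smul, smul_eq_mul]
  have := hx i
  have := mul_nonpos_of_nonneg_of_nonpos ht (hh i)
  linarith

theorem exists_small {h : Fin n → ℝ} (hx : x ∈ Ply a b)
    (hh : ∀ i ∈ tg a b x, a i ⬝ᵥ h ≤ 0) : ∃ t : ℝ, 0 < t ∧ x + t • h ∈ Ply a b := by
  by_cases hex : ∃ i, 0 < a i ⬝ᵥ h
  · obtain ⟨t, ht, h1, -⟩ := step_dir hx hh hex
    exact ⟨t, ht, h1⟩
  · push Not at hex
    exact ⟨1, one_pos, ply_free hx hex zero_le_one⟩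

omit [Fintype ι] in
theorem ply_between {t s : ℝ} {h : Fin n → ℝ} (hx : x ∈ Ply a b) (hy : x + t • h ∈ Ply a b)
    (hs : 0 ≤ s) (hst : s ≤ t) : x + s • h ∈ Ply a b := by
  intro i
  have h1 := hx i
  have h2 := hy i
  rw [dotProduct_add, dotProduct_smul, smul_eq_mul] at h2 ⊢
  rcases le_or_gt (a i ⬝ᵥ h) 0 with h3 | h3
  · have := mul_nonpos_of_nonneg_of_nonpos hs h3
    linarith
  · have := mul_le_mul_of_nonneg_right hst h3.le
    linarith

theorem Vert.extreme (hx : Vert a b x) : x ∈ (Ply a b).extremePoints ℝ := by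
  refine ⟨hx.mem, fun y hy z hz hyz => ?_⟩
  obtain ⟨s, t, hs, ht, hst, h⟩ := hyz
  have h1 := hx.ker (y - x) fun i hi => by
    have e1 := ply_sub_le hy hi
    have e2 := ply_sub_le hz hi
    have e3 : s • (y - x) + t • (z - x) = 0 := by
      rw [smul_sub, smul_sub, sub_add_sub_comm, h, ← add_smul, hst, one_smul, sub_self]
    have e4 := congrArg (fun u => a i ⬝ᵥ u) e3
    simp only [dotProduct_add, dotProduct_smul, dotProduct_zero, smul_eq_mul] at e4
    have e5 := mul_nonpos_of_nonneg_of_nonpos hs.le e1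
    have e6 := mul_nonpos_of_nonneg_of_nonpos ht.le e2
    have e7 : s * (a i ⬝ᵥ (y - x)) = 0 := by linarith
    rcases mul_eq_zero.1 e7 with h | h
    · exact absurd h hs.ne'
    · exact h
  exact sub_eq_zero.1 h1

theorem vert_of_extreme (hx : x ∈ (Ply a b).extremePoints ℝ) : Vert a b x := by
  refine ⟨hx.1, fun h hh => ?_⟩
  obtain ⟨t1, ht1, h1⟩ := exists_small (h := h) hx.1 fun i hi => (hh i hi).le
  obtain ⟨t2, ht2, h2⟩ := exists_small (h := -h) hx.1 fun i hi => by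
    rw [dotProduct_neg, hh i hi, neg_zero]
  set t := min t1 t2 with ht
  have htpos : 0 < t := lt_min ht1 ht2
  have h3 := ply_between hx.1 h1 htpos.le (min_le_left _ _)
  have h4 := ply_between hx.1 h2 htpos.le (min_le_right _ _)
  have h5 := hx.2 h3 h4 ⟨1/2, 1/2, by norm_num, by norm_num, by norm_num, by
    funext j
    simp
    ring⟩
  have h6 : t • h = 0 := by
    have := congrArg (fun u => u - x) h5
    simpa using this
  rcases smul_eq_zero.1 h6 with h | h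
  · exact absurd h htpos.ne'
  · exact h

/-- the vertices are finitely many -/
theorem verts_finite (a : ι → Fin n → ℝ) (b : ι → ℝ) : {x | Vert a b x}.Finite := by
  classical
  refine Set.Finite.of_finite_image (f := fun x => tg a b x) (Set.toFinite _) ?_
  intro x hx y hy hxy
  have h := hx.ker (y - x) fun i hi => by
    have h2 : i ∈ tg a b y := by
      have h3 : tg a b x = tg a b y := hxy
      rwa [h3] at hi
    rw [dotProduct_sub, mem_tg.1 hi, mem_tg.1 h2, sub_self]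
  exact (sub_eq_zero.1 h).symm

omit [Fintype ι] in
theorem convex_ply : Convex ℝ (Ply a b) := by
  intro x hx y hy s t hs ht hst i
  rw [dotProduct_add, dotProduct_smul, dotProduct_smul, smul_eq_mul, smul_eq_mul]
  calc s * (a i ⬝ᵥ x) + t * (a i ⬝ᵥ y) ≤ s * b i + t * b i :=
        add_le_add (mul_le_mul_of_nonneg_left (hx i) hs) (mul_le_mul_of_nonneg_left (hy i) ht)
    _ = b i := by rw [← add_mul, hst, one_mul]

/-- some tight row decreases in an extreme direction -/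
theorem exists_neg (hx : Vert a b x) {g : Fin n → ℝ} (hg : Ex a b x g) :
    ∃ i ∈ tg a b x, a i ⬝ᵥ g < 0 := by
  by_contra hcon
  push Not at hcon
  exact hg.ne (hx.ker _ fun i hi => le_antisymm (hg.le i hi) (hcon i hi))

/-- the functional `u` -/
noncomputable def dotL (u : Fin n → ℝ) : StrongDual ℝ (Fin n → ℝ) :=
  ∑ j, u j • ContinuousLinearMap.proj (R := ℝ) (φ := fun _ : Fin n => ℝ) j

theorem dotL_apply (u x : Fin n → ℝ) : dotL u x = u ⬝ᵥ x := by
  simp [dotL, dotProduct]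

/-- the points of the line of an edge -/
theorem exposed_aux (hx : Vert a b x) {g : Fin n → ℝ} (hg : Ex a b x g) :
    ∃ u : Fin n → ℝ, {z | z ∈ Ply a b ∧ ∀ y ∈ Ply a b, dotL u y ≤ dotL u z} =
      {z | z ∈ Ply a b ∧ ∃ s : ℝ, 0 ≤ s ∧ z = x + s • g} := by
  classical
  set Z := (tg a b x).filter fun i => a i ⬝ᵥ g = 0 with hZ
  set u : Fin n → ℝ := ∑ i ∈ Z, a i with hu
  have hux : ∀ z ∈ Ply a b, u ⬝ᵥ z ≤ u ⬝ᵥ x := by
    intro z hz
    rw [hu, sum_dotProduct, sum_dotProduct]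
    refine Finset.sum_le_sum fun i hi => ?_
    have := ply_sub_le hz (Finset.mem_filter.1 hi).1
    rw [dotProduct_sub] at this
    linarith
  refine ⟨u, ?_⟩
  ext z
  simp only [Set.mem_ofPred_eq, dotL_apply]
  refine and_congr_right fun hz => ⟨fun h => ?_, ?_⟩
  · have h1 : u ⬝ᵥ z = u ⬝ᵥ x := le_antisymm (hux z hz) (h x hx.mem)
    have h2 : ∑ i ∈ Z, a i ⬝ᵥ (z - x) = 0 := by
      rw [← sum_dotProduct, ← hu, dotProduct_sub, h1, sub_self]
    have h3 : ∀ i ∈ Z, a i ⬝ᵥ (z - x) = 0 :=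
      (Finset.sum_eq_zero_iff_of_nonpos fun i hi =>
        ply_sub_le hz (Finset.mem_filter.1 hi).1).1 h2
    obtain ⟨s, hs⟩ := hg.ext (z - x) fun i hi h0 => h3 i (Finset.mem_filter.2 ⟨hi, h0⟩)
    refine ⟨s, ?_, by rw [← hs]; abel⟩
    obtain ⟨i, hi, h4⟩ := exists_neg hx hg
    have h5 := ply_sub_le hz hi
    rw [hs, dotProduct_smul, smul_eq_mul] at h5
    by_contra hcon
    push Not at hcon
    have := mul_pos_of_neg_of_neg hcon h4
    linarith
  · rintro ⟨s, -, rfl⟩ y hy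
    have h1 : u ⬝ᵥ (x + s • g) = u ⬝ᵥ x := by
      rw [dotProduct_add, dotProduct_smul, hu, sum_dotProduct, sum_dotProduct]
      rw [Finset.sum_eq_zero (f := fun i => a i ⬝ᵥ g) fun i hi => (Finset.mem_filter.1 hi).2]
      simp
    rw [h1]
    exact hux y hy

/-- an unbounded edge -/
theorem edge_unbounded (hx : Vert a b x) {g : Fin n → ℝ} (hg : Ex a b x g)
    (h : ∀ i, a i ⬝ᵥ g ≤ 0) :
    IsExposed ℝ (Ply a b) {z | ∃ t : ℝ, 0 ≤ t ∧ z = x + t • g} := by
  intro _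
  obtain ⟨u, hu⟩ := exposed_aux hx hg
  refine ⟨dotL u, ?_⟩
  have h1 : {z | ∃ t : ℝ, 0 ≤ t ∧ z = x + t • g} =
      {z | z ∈ Ply a b ∧ ∃ s : ℝ, 0 ≤ s ∧ z = x + s • g} := by
    ext z
    simp only [Set.mem_ofPred_eq]
    constructor
    · rintro ⟨t, ht, rfl⟩
      exact ⟨ply_free hx.mem h ht, t, ht, rfl⟩
    · rintro ⟨_, h⟩
      exact h
  rw [h1, ← hu]

/-- a bounded edge -/
theorem edge_bounded (hx : Vert a b x) {g : Fin n → ℝ} (hg : Ex a b x g)
    (h : ∃ i, 0 < a i ⬝ᵥ g) :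
    ∃ t : ℝ, 0 < t ∧ Vert a b (x + t • g) ∧
      IsExposed ℝ (Ply a b) (segment ℝ x (x + t • g)) := by
  obtain ⟨t, ht, h1, i1, hi1, h2⟩ := step_dir hx.mem hg.le h
  refine ⟨t, ht, ⟨h1, fun h hh => ?_⟩, fun _ => ?_⟩
  · obtain ⟨s, hs⟩ := hg.ext h fun i hi h0 => hh i (mem_tg.2 (by
      rw [dotProduct_add, dotProduct_smul, h0, smul_zero, add_zero, mem_tg.1 hi]))
    have h3 := hh i1 (mem_tg.2 h2)
    rw [hs, dotProduct_smul, smul_eq_mul] at h3
    rcases mul_eq_zero.1 h3 with h | h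
    · rw [hs, h, zero_smul]
    · exact absurd h hi1.ne'
  · obtain ⟨u, hu⟩ := exposed_aux hx hg
    refine ⟨dotL u, ?_⟩
    have h3 : segment ℝ x (x + t • g) =
        {z | z ∈ Ply a b ∧ ∃ s : ℝ, 0 ≤ s ∧ z = x + s • g} := by
      ext z
      simp only [Set.mem_ofPred_eq]
      constructor
      · intro hz
        have hzP := (convex_ply (a := a) (b := b)).segment_subset hx.mem h1 hz
        rw [segment_eq_image'] at hz
        obtain ⟨θ, hθ, rfl⟩ := hz
        refine ⟨hzP, θ * t, mul_nonneg hθ.1 ht.le, ?_⟩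
        simp only [add_sub_cancel_left, smul_smul]
      · rintro ⟨hz, s, hs, rfl⟩
        rw [segment_eq_image']
        have hst : s ≤ t := by
          have h4 := hz i1
          rw [← h2, dotProduct_add, dotProduct_add, dotProduct_smul, dotProduct_smul,
            smul_eq_mul, smul_eq_mul] at h4
          by_contra hcon
          push Not at hcon
          have := mul_lt_mul_of_pos_right hcon hi1
          linarith
        refine ⟨s / t, ⟨div_nonneg hs ht.le, (div_le_one ht).2 hst⟩, ?_⟩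
        simp only [add_sub_cancel_left]
        rw [smul_smul, div_mul_cancel₀ _ ht.ne']
    rw [h3, ← hu]

end Pool.Agent.Q330.LV
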