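import Pool.Agent.Q330.LV.Step
set_option autoImplicit false

/-!
# The ordered shadow rule
-/

namespace Pool.Agent.Q330.LV

open Matrix Finset

variable {ι : Type} [Fintype ι] {n r : ℕ}

/-- A pivot of stage `j` from the vertex `x` to the vertex `y`: the segment from `x` to `y` is an
edge of `P` on which the objective `c` and the functional `f j` increase, it lies in the face of
stage `j`, and in this face no point has a larger slope of `c` against `f j`, seen from `x`. -/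
structure Pivot (P : Set (Fin n → ℝ)) (c : Fin n → ℝ) (f : Fin r → Fin n → ℝ) (v : Fin n → ℝ)
    (j : Fin r) (x y : Fin n → ℝ) : Prop where
  left : x ∈ P.extremePoints ℝ
  right : y ∈ P.extremePoints ℝ
  edge : IsExposed ℝ P (segment ℝ x y)
  left_mem : x ∈ Fc P f v (j + 1)
  right_mem : y ∈ Fc P f v (j + 1)
  improving : c ⬝ᵥ x < c ⬝ᵥ y
  rising : f j ⬝ᵥ x < f j ⬝ᵥ y
  slope : ∀ z ∈ Fc P f v (j + 1),
    (c ⬝ᵥ (z - x)) * (f j ⬝ᵥ (y - x)) ≤ (c ⬝ᵥ (y - x)) * (f j ⬝ᵥ (z - x))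

/-- `Run P c f v k j x`: some run of the rule, started at `v` in stage `0`, is after `k` pivots in
stage `j` at the vertex `x`. The stage `j` may be left when `x` maximises `c` on its face. -/
inductive Run (P : Set (Fin n → ℝ)) (c : Fin n → ℝ) (f : Fin r → Fin n → ℝ) (v : Fin n → ℝ) :
    ℕ → ℕ → (Fin n → ℝ) → Prop
  | start : Run P c f v 0 0 v
  | pivot {k : ℕ} {j : Fin r} {x y : Fin n → ℝ} : Run P c f v k j x → Pivot P c f v j x y →
      Run P c f v (k + 1) j y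
  | next {k : ℕ} {j : Fin r} {x : Fin n → ℝ} : Run P c f v k j x →
      (∀ z ∈ Fc P f v (j + 1), c ⬝ᵥ z ≤ c ⬝ᵥ x) → Run P c f v k (j + 1) x

/-- an unbounded edge at `x` on which `c` increases -/
def Ray (P : Set (Fin n → ℝ)) (c x : Fin n → ℝ) : Prop :=
  ∃ g : Fin n → ℝ, IsExposed ℝ P {z | ∃ t : ℝ, 0 ≤ t ∧ z = x + t • g} ∧ 0 < c ⬝ᵥ g

/-- the number of different values of `f j` at the vertices in the face of stage `j` -/
noncomputable def levels (P : Set (Fin n → ℝ)) (f : Fin r → Fin n → ℝ) (v : Fin n → ℝ)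
    (j : Fin r) : ℕ :=
  Set.ncard {t : ℝ | ∃ w ∈ P.extremePoints ℝ, w ∈ Fc P f v (j + 1) ∧ f j ⬝ᵥ w = t}

/-- the values below `f j x` -/
def bel (P : Set (Fin n → ℝ)) (f : Fin r → Fin n → ℝ) (v : Fin n → ℝ) (j : Fin r)
    (x : Fin n → ℝ) : Set ℝ :=
  {t : ℝ | (∃ w ∈ P.extremePoints ℝ, w ∈ Fc P f v (j + 1) ∧ f j ⬝ᵥ w = t) ∧ t < f j ⬝ᵥ x}

variable {a : ι → Fin n → ℝ} {b : ι → ℝ} {x y z v c : Fin n → ℝ} {f : Fin r → Fin n → ℝ}

theorem lev_finite (j : Fin r) :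
    {t : ℝ | ∃ w ∈ (Ply a b).extremePoints ℝ, w ∈ Fc (Ply a b) f v (j + 1) ∧ f j ⬝ᵥ w = t}.Finite := by
  refine ((verts_finite a b).image fun w => f j ⬝ᵥ w).subset ?_
  rintro t ⟨w, h1, -, h2⟩
  exact ⟨w, vert_of_extreme h1, h2⟩

theorem bel_finite (j : Fin r) : (bel (Ply a b) f v j x).Finite :=
  (lev_finite (a := a) (b := b) (f := f) (v := v) j).subset fun _ h => h.1

theorem bel_lt (j : Fin r) (hx : x ∈ (Ply a b).extremePoints ℝ)
    (hxF : x ∈ Fc (Ply a b) f v (j + 1)) :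
    (bel (Ply a b) f v j x).ncard + 1 ≤ levels (Ply a b) f v j := by
  have h1 : bel (Ply a b) f v j x ⊂
      {t : ℝ | ∃ w ∈ (Ply a b).extremePoints ℝ, w ∈ Fc (Ply a b) f v (j + 1) ∧ f j ⬝ᵥ w = t} := by
    refine ⟨fun _ h => h.1, fun h => ?_⟩
    exact lt_irrefl _ (h ⟨x, hx, hxF, rfl⟩).2
  exact Set.ncard_lt_ncard h1 (lev_finite j)

theorem bel_step {j : Fin r} (h : Pivot (Ply a b) c f v j x y) :
    (bel (Ply a b) f v j x).ncard + 1 ≤ (bel (Ply a b) f v j y).ncard := by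
  have h1 : bel (Ply a b) f v j x ⊂ bel (Ply a b) f v j y := by
    refine ⟨fun _ h2 => ⟨h2.1, h2.2.trans h.rising⟩, fun h2 => ?_⟩
    exact lt_irrefl _ (h2 ⟨⟨x, h.left, h.left_mem, rfl⟩, h.rising⟩).2
  exact Set.ncard_lt_ncard h1 (bel_finite j)

/-- the bound after the stages before `j` -/
noncomputable def Bd (P : Set (Fin n → ℝ)) (f : Fin r → Fin n → ℝ) (v : Fin n → ℝ) (j : ℕ) : ℕ :=
  ∑ i : Fin r, if (i : ℕ) < j then levels P f v i - 1 else 0

theorem bd_succ (P : Set (Fin n → ℝ)) (j : Fin r) :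
    Bd P f v (j + 1) = Bd P f v j + (levels P f v j - 1) := by
  unfold Bd
  rw [← Finset.sum_erase_add _ _ (Finset.mem_univ j),
    ← Finset.sum_erase_add (a := j) _ _ (Finset.mem_univ j)]
  rw [if_pos (Nat.lt_succ_self _), if_neg (lt_irrefl _), add_zero]
  congr 1
  refine Finset.sum_congr rfl fun i hi => ?_
  have : (i : ℕ) ≠ j := fun h => (Finset.mem_erase.1 hi).1 (Fin.ext h)
  by_cases h : (i : ℕ) < j
  · rw [if_pos h, if_pos (by omega)]
  · rw [if_neg h, if_neg (by omega)]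

theorem bd_le (P : Set (Fin n → ℝ)) (j : ℕ) : Bd P f v j ≤ ∑ i : Fin r, (levels P f v i - 1) := by
  refine Finset.sum_le_sum fun i _ => ?_
  split_ifs
  · exact le_rfl
  · exact Nat.zero_le _

/-- the invariant -/
structure Inv (P : Set (Fin n → ℝ)) (c : Fin n → ℝ) (f : Fin r → Fin n → ℝ) (v : Fin n → ℝ)
    (k j : ℕ) (x : Fin n → ℝ) : Prop where
  vert : x ∈ P.extremePoints ℝ
  mem : x ∈ Fc P f v (j + 1)
  stage : j ≤ r
  top : ∀ h : j < r, (∀ z ∈ Fc P f v (j + 1), f ⟨j, h⟩ ⬝ᵥ z ≤ f ⟨j, h⟩ ⬝ᵥ x → c ⬝ᵥ z ≤ c ⬝ᵥ x) ∧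
    k ≤ Bd P f v j + (bel P f v ⟨j, h⟩ x).ncard
  fin : j = r → (∀ z ∈ P, c ⬝ᵥ z ≤ c ⬝ᵥ x) ∧ k ≤ Bd P f v j

theorem fc_all {P : Set (Fin n → ℝ)} {j : ℕ} (h : r ≤ j) (hz : z ∈ P) : z ∈ Fc P f v j :=
  ⟨hz, fun i hi => absurd i.2 (by omega)⟩

theorem inv_of_run (hv : v ∈ (Ply a b).extremePoints ℝ)
    (hf : ∀ i, ∀ z ∈ Ply a b, f i ⬝ᵥ v ≤ f i ⬝ᵥ z)
    (hu : ∀ z ∈ Ply a b, (∀ i, f i ⬝ᵥ z = f i ⬝ᵥ v) → z = v)
    {k j : ℕ} (h : Run (Ply a b) c f v k j x) : Inv (Ply a b) c f v k j x := by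
  induction h with
  | start =>
    refine ⟨hv, ⟨hv.1, fun _ _ => rfl⟩, Nat.zero_le _, fun h => ⟨fun z hz hle => ?_, ?_⟩,
      fun h => ⟨fun z hz => ?_, Nat.zero_le _⟩⟩
    · have h1 : z = v := hu z hz.1 fun i => by
        rcases Nat.eq_zero_or_pos (i : ℕ) with h0 | h0
        · have : i = ⟨0, h⟩ := Fin.ext h0
          rw [this]
          exact le_antisymm hle (hf _ z hz.1)
        · exact hz.2 i h0
      rw [h1]
    · exact Nat.zero_le _
    · have h1 : z = v := hu z hz fun i => absurd i.2 (by omega)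
      rw [h1]
  | @pivot k j x y _ hp ih =>
    refine ⟨hp.right, hp.right_mem, j.2.le, fun h => ⟨fun z hz hle => ?_, ?_⟩,
      fun h => absurd j.2 (by omega)⟩
    · have e1 := hp.slope z hz
      have e2 : (c ⬝ᵥ (y - x)) * (f j ⬝ᵥ (z - x)) ≤ (c ⬝ᵥ (y - x)) * (f j ⬝ᵥ (y - x)) := by
        refine mul_le_mul_of_nonneg_left ?_ ?_
        · rw [dotProduct_sub, dotProduct_sub]
          have : f j ⬝ᵥ z ≤ f j ⬝ᵥ y := hle
          linarith
        · rw [dotProduct_sub]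
          linarith [hp.improving]
      have e3 : 0 < f j ⬝ᵥ (y - x) := by
        rw [dotProduct_sub]
        linarith [hp.rising]
      have e4 := le_of_mul_le_mul_right (e1.trans e2) e3
      rw [dotProduct_sub, dotProduct_sub] at e4
      linarith
    · have e1 : k ≤ Bd (Ply a b) f v j + (bel (Ply a b) f v j x).ncard := (ih.top j.2).2
      have e2 := bel_step hp
      show k + 1 ≤ Bd (Ply a b) f v j + (bel (Ply a b) f v j y).ncard
      omega
  | @next k j x _ hmax ih =>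
    have hk : k ≤ Bd (Ply a b) f v (j + 1) := by
      have e1 := (ih.top j.2).2
      have e2 := bel_lt j ih.vert ih.mem
      rw [bd_succ]
      have e3 : (⟨(j : ℕ), j.2⟩ : Fin r) = j := rfl
      rw [e3] at e1
      omega
    refine ⟨ih.vert, fc_mono (Nat.le_succ _) ih.mem, j.2, fun h => ⟨fun z hz hle => ?_, ?_⟩,
      fun h => ⟨fun z hz => hmax z (fc_all (by omega) hz), hk⟩⟩
    · refine hmax z ⟨hz.1, fun i hi => ?_⟩
      rcases hi.lt_or_eq with h1 | h1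
      · exact hz.2 i (by omega)
      · have h2 : (⟨(j : ℕ) + 1, h⟩ : Fin r) = i := Fin.ext h1
        rw [h2] at hle
        refine le_antisymm ?_ (hf _ z hz.1)
        rw [← ih.mem.2 i hi]
        exact hle
    · exact hk.trans (Nat.le_add_right _ _)

/-- the number of pivots -/
theorem run_le (hv : v ∈ (Ply a b).extremePoints ℝ)
    (hf : ∀ i, ∀ z ∈ Ply a b, f i ⬝ᵥ v ≤ f i ⬝ᵥ z)
    (hu : ∀ z ∈ Ply a b, (∀ i, f i ⬝ᵥ z = f i ⬝ᵥ v) → z = v)
    {k j : ℕ} (h : Run (Ply a b) c f v k j x) :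
    k ≤ ∑ i : Fin r, (levels (Ply a b) f v i - 1) := by
  have hI := inv_of_run hv hf hu h
  rcases hI.stage.lt_or_eq with h1 | h1
  · have e1 := (hI.top h1).2
    have e2 := bel_lt ⟨j, h1⟩ hI.vert hI.mem
    have e3 := bd_succ (Ply a b) (f := f) (v := v) ⟨j, h1⟩
    have e4 := bd_le (f := f) (v := v) (Ply a b) (j + 1)
    simp only at e3
    omega
  · exact (hI.fin h1).2.trans (bd_le _ _)

/-- the rule is never stuck -/
theorem progress (hv : v ∈ (Ply a b).extremePoints ℝ)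
    (hf : ∀ i, ∀ z ∈ Ply a b, f i ⬝ᵥ v ≤ f i ⬝ᵥ z)
    (hu : ∀ z ∈ Ply a b, (∀ i, f i ⬝ᵥ z = f i ⬝ᵥ v) → z = v)
    {k : ℕ} {j : Fin r} (h : Run (Ply a b) c f v k j x) :
    (∃ y, Pivot (Ply a b) c f v j x y) ∨ Ray (Ply a b) c x ∨
      ∀ z ∈ Fc (Ply a b) f v (j + 1), c ⬝ᵥ z ≤ c ⬝ᵥ x := by
  have hI := inv_of_run hv hf hu h
  by_cases hmax : ∀ z ∈ Fc (Ply a b) f v (j + 1), c ⬝ᵥ z ≤ c ⬝ᵥ x
  · exact Or.inr (Or.inr hmax)
  push Not at hmax
  have hx := vert_of_extreme hI.vert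
  obtain ⟨g, h1, h2, h3, h4, h5⟩ := face_step hf hx hI.mem (c := c) (p := f j)
    (hI.top j.2).1 hmax
  by_cases hex : ∃ i, 0 < a i ⬝ᵥ g
  · obtain ⟨t, ht, h6, h7⟩ := edge_bounded hx h1 hex
    refine Or.inl ⟨x + t • g, hI.vert, h6.extreme, h7, hI.mem, ⟨h6.mem, fun i hi => ?_⟩, ?_, ?_, ?_⟩
    · rw [dotProduct_add, dotProduct_smul, h2 i hi, smul_zero, add_zero]
      exact hI.mem.2 i hi
    · rw [dotProduct_add, dotProduct_smul, smul_eq_mul]
      have := mul_pos ht h3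
      linarith
    · rw [dotProduct_add, dotProduct_smul, smul_eq_mul]
      have := mul_pos ht h4
      linarith
    · intro z hz
      rw [add_sub_cancel_left, dotProduct_smul, dotProduct_smul, smul_eq_mul, smul_eq_mul]
      have := mul_le_mul_of_nonneg_left (h5 z hz) ht.le
      linarith
  · push Not at hex
    exact Or.inr (Or.inl ⟨g, edge_unbounded hx h1 hex, h3⟩)

/-- a run to the end -/
theorem exists_run (hv : v ∈ (Ply a b).extremePoints ℝ)
    (hf : ∀ i, ∀ z ∈ Ply a b, f i ⬝ᵥ v ≤ f i ⬝ᵥ z)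
    (hu : ∀ z ∈ Ply a b, (∀ i, f i ⬝ᵥ z = f i ⬝ᵥ v) → z = v) :
    ∃ (k j : ℕ) (x : Fin n → ℝ), Run (Ply a b) c f v k j x ∧
      ((∀ z ∈ Ply a b, c ⬝ᵥ z ≤ c ⬝ᵥ x) ∨ Ray (Ply a b) c x) := by
  by_contra hcon
  push Not at hcon
  set K := ∑ i : Fin r, (levels (Ply a b) f v i - 1) with hK
  have key : ∀ N : ℕ, ∃ (k j : ℕ) (x : Fin n → ℝ), Run (Ply a b) c f v k j x ∧ k + j = N := by
    intro N
    induction N with
    | zero => exact ⟨0, 0, v, Run.start, rfl⟩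
    | succ N ih =>
      obtain ⟨k, j, x, h, rfl⟩ := ih
      have hI := inv_of_run hv hf hu h
      rcases hI.stage.lt_or_eq with h1 | h1
      · have h' : Run (Ply a b) c f v k (⟨j, h1⟩ : Fin r) x := h
        rcases progress hv hf hu h' with ⟨y, hy⟩ | h2 | h2
        · exact ⟨k + 1, j, y, Run.pivot h' hy, by omega⟩
        · exact absurd h2 (hcon k j x h).2
        · exact ⟨k, j + 1, x, Run.next h' h2, by omega⟩
      · obtain ⟨z, hz, hlt⟩ := (hcon k j x h).1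
        exact absurd ((hI.fin h1).1 z hz) (not_le.2 hlt)
  obtain ⟨k, j, x, h, hkj⟩ := key (K + r + 1)
  have h1 := run_le hv hf hu h
  have h2 := (inv_of_run hv hf hu h).stage
  omega

/-- `x` and `y` are the ends of an edge on which `c` increases -/
def Improving (P : Set (Fin n → ℝ)) (c x y : Fin n → ℝ) : Prop :=
  x ∈ P.extremePoints ℝ ∧ y ∈ P.extremePoints ℝ ∧ IsExposed ℝ P (segment ℝ x y) ∧
    c ⬝ᵥ x < c ⬝ᵥ y

omit [Fintype ι] in
theorem path_of_run {P : Set (Fin n → ℝ)} {k j : ℕ} (h : Run P c f v k j x) :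
    ∃ w : ℕ → Fin n → ℝ, w 0 = v ∧ w k = x ∧ ∀ i < k, Improving P c (w i) (w (i + 1)) := by
  induction h with
  | start => exact ⟨fun _ => v, rfl, rfl, fun i hi => absurd hi (Nat.not_lt_zero _)⟩
  | @pivot k j x y _ hp ih =>
    obtain ⟨w, h0, hk, hw⟩ := ih
    refine ⟨fun i => if i ≤ k then w i else y, ?_, ?_, fun i hi => ?_⟩
    · simp only [Nat.zero_le, if_true]
      exact h0
    · simp
    · rcases Nat.lt_succ_iff_lt_or_eq.1 hi with h1 | h1
      · simp only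
        rw [if_pos h1.le, if_pos (by omega)]
        exact hw i h1
      · subst h1
        simp only
        rw [if_pos le_rfl, if_neg (by omega), hk]
        exact ⟨hp.left, hp.right, hp.edge, hp.improving⟩
  | next _ _ ih => exact ih

/-- the path -/
theorem exists_path (hv : v ∈ (Ply a b).extremePoints ℝ)
    (hf : ∀ i, ∀ z ∈ Ply a b, f i ⬝ᵥ v ≤ f i ⬝ᵥ z)
    (hu : ∀ z ∈ Ply a b, (∀ i, f i ⬝ᵥ z = f i ⬝ᵥ v) → z = v) :
    ∃ (N : ℕ) (w : ℕ → Fin n → ℝ), N ≤ ∑ i : Fin r, (levels (Ply a b) f v i - 1) ∧ w 0 = v ∧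
      (∀ i < N, Improving (Ply a b) c (w i) (w (i + 1))) ∧
      ((∀ z ∈ Ply a b, c ⬝ᵥ z ≤ c ⬝ᵥ w N) ∨ Ray (Ply a b) c (w N)) := by
  obtain ⟨k, j, x, h1, h2⟩ := exists_run (c := c) hv hf hu
  obtain ⟨w, h3, h4, h5⟩ := path_of_run h1
  exact ⟨k, w, run_le hv hf hu h1, h3, h5, by rw [h4]; exact h2⟩

/-- tight rows which determine the vertex -/
theorem exists_rows (hx : Vert a b x) : ∃ (d : ℕ) (idx : Fin d → ι), d ≤ n ∧
    (∀ k, idx k ∈ tg a b x) ∧ ∀ h : Fin n → ℝ, (∀ k, a (idx k) ⬝ᵥ h = 0) → h = 0 := by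
  classical
  set S : Set (Fin n → ℝ) := {u | ∃ i ∈ tg a b x, u = a i} with hS
  obtain ⟨f, hf1, hf2, hf3⟩ := Submodule.exists_fun_fin_finrank_span_eq ℝ S
  choose idx hidx1 hidx2 using hf1
  refine ⟨_, idx, ?_, hidx1, fun h hh => hx.ker h fun i hi => ?_⟩
  · have := Submodule.finrank_le (Submodule.span ℝ S)
    rwa [Module.finrank_fin_fun] at this
  · have h1 : ∀ u ∈ Submodule.span ℝ (Set.range f), u ⬝ᵥ h = 0 := by
      intro u hu
      induction hu using Submodule.span_induction with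
      | mem x hx =>
        obtain ⟨k, rfl⟩ := hx
        rw [hidx2 k]
        exact hh k
      | zero => exact zero_dotProduct _
      | add x y _ _ hx hy => rw [add_dotProduct, hx, hy, add_zero]
      | smul c x _ hx => rw [smul_dotProduct, hx, smul_zero]
    refine h1 _ ?_
    rw [hf2]
    exact Submodule.subset_span ⟨i, hi, rfl⟩

/-- few values of the rows at the vertices -/
theorem few_values (hv : v ∈ (Ply a b).extremePoints ℝ) {K : ℕ}
    (hK : ∀ i, Set.ncard {t : ℝ | ∃ w ∈ (Ply a b).extremePoints ℝ, a i ⬝ᵥ w = t} ≤ K) :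
    ∃ (N : ℕ) (w : ℕ → Fin n → ℝ), N ≤ n * (K - 1) ∧ w 0 = v ∧
      (∀ i < N, Improving (Ply a b) c (w i) (w (i + 1))) ∧
      ((∀ z ∈ Ply a b, c ⬝ᵥ z ≤ c ⬝ᵥ w N) ∨ Ray (Ply a b) c (w N)) := by
  obtain ⟨d, idx, hd, h1, h2⟩ := exists_rows (vert_of_extreme hv)
  obtain ⟨N, w, h3, h4, h5, h6⟩ := exists_path (c := c) (f := fun k => -a (idx k)) hv
    (fun k z hz => by
      rw [neg_dotProduct, neg_dotProduct, mem_tg.1 (h1 k)]
      have := hz (idx k)
      linarith)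
    (fun z hz h => by
      refine sub_eq_zero.1 (h2 _ fun k => ?_)
      have := h k
      rw [neg_dotProduct, neg_dotProduct] at this
      rw [dotProduct_sub]
      linarith)
  refine ⟨N, w, h3.trans ?_, h4, h5, h6⟩
  calc ∑ i : Fin d, (levels (Ply a b) (fun k => -a (idx k)) v i - 1)
      ≤ ∑ _i : Fin d, (K - 1) := by
        refine Finset.sum_le_sum fun i _ => Nat.sub_le_sub_right ?_ 1
        refine le_trans ?_ (hK (idx i))
        unfold levels
        have hfin : {t : ℝ | ∃ w ∈ (Ply a b).extremePoints ℝ, a (idx i) ⬝ᵥ w = t}.Finite := by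
          refine ((verts_finite a b).image fun w => a (idx i) ⬝ᵥ w).subset ?_
          rintro t ⟨w, h1, h2⟩
          exact ⟨w, vert_of_extreme h1, h2⟩
        rw [← Set.ncard_image_of_injective
          {t : ℝ | ∃ w ∈ (Ply a b).extremePoints ℝ, a (idx i) ⬝ᵥ w = t} neg_injective]
        refine Set.ncard_le_ncard ?_ (hfin.image _)
        rintro t ⟨w, hw, -, rfl⟩
        exact ⟨_, ⟨w, hw, rfl⟩, (neg_dotProduct _ _).symm⟩
    _ = d * (K - 1) := by rw [Finset.sum_const, Finset.card_univ, Fintype.card_fin, smul_eq_mul]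
    _ ≤ n * (K - 1) := Nat.mul_le_mul_right _ hd

end Pool.Agent.Q330.LV
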