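import Pool.Agent.Q330.LV.Cone
set_option autoImplicit false

/-!
# A step of the shadow vertex method on a face
-/

namespace Pool.Agent.Q330.LV

open Matrix Finset
open Pool.Agent.Q330.TU (Extr exists_extr)

variable {ι : Type} [Fintype ι] {n : ℕ} {a : ι → Fin n → ℝ} {b : ι → ℝ} {x y z : Fin n → ℝ}

/-- extreme directions with the same vanishing rows are parallel -/
theorem Ex.parallel (hx : Vert a b x) {g h : Fin n → ℝ} (hg : Ex a b x g) (hh : Ex a b x h)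
    (he : ∀ i ∈ tg a b x, a i ⬝ᵥ g = 0 → a i ⬝ᵥ h = 0) : ∃ s : ℝ, 0 < s ∧ h = s • g := by
  obtain ⟨s, hs⟩ := hg.ext h he
  refine ⟨s, ?_, hs⟩
  by_contra hcon
  push Not at hcon
  apply hh.ne
  refine hx.ker h fun i hi => le_antisymm (hh.le i hi) ?_
  rw [hs, dotProduct_smul, smul_eq_mul]
  exact mul_nonneg_of_nonpos_of_nonpos hcon (hg.le i hi)

/-- **One step of the shadow vertex method.** -/
theorem sh_step (hx : Vert a b x) {c f : Fin n → ℝ}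
    (hM : ∀ z ∈ Ply a b, f ⬝ᵥ z ≤ f ⬝ᵥ x → c ⬝ᵥ z ≤ c ⬝ᵥ x)
    (hno : ∃ z ∈ Ply a b, c ⬝ᵥ x < c ⬝ᵥ z) :
    ∃ g, Ex a b x g ∧ 0 < c ⬝ᵥ g ∧ 0 < f ⬝ᵥ g ∧
      ∀ z ∈ Ply a b, (c ⬝ᵥ (z - x)) * (f ⬝ᵥ g) ≤ (c ⬝ᵥ g) * (f ⬝ᵥ (z - x)) := by
  classical
  -- feasible directions
  have hfeas : ∀ h : Fin n → ℝ, (∀ i ∈ tg a b x, a i ⬝ᵥ h ≤ 0) → f ⬝ᵥ h ≤ 0 → c ⬝ᵥ h ≤ 0 := by
    intro h h1 h2
    obtain ⟨t, ht, h3⟩ := exists_small hx.mem h1
    have h4 := hM _ h3 (by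
      rw [dotProduct_add, dotProduct_smul, smul_eq_mul]
      have := mul_nonpos_of_nonneg_of_nonpos ht.le h2
      linarith)
    rw [dotProduct_add, dotProduct_smul, smul_eq_mul] at h4
    by_contra hcon
    push Not at hcon
    have := mul_pos ht hcon
    linarith
  have hpos : ∀ g, Ex a b x g → 0 < c ⬝ᵥ g → 0 < f ⬝ᵥ g := by
    intro g hg h1
    by_contra hcon
    push Not at hcon
    have := hfeas g hg.le hcon
    linarith
  -- the zero sets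
  set Z : (Fin n → ℝ) → Finset ι := fun g => (tg a b x).filter fun i => a i ⬝ᵥ g = 0 with hZ
  set S : Finset (Finset ι) := (tg a b x).powerset.filter fun s =>
    ∃ g, Ex a b x g ∧ 0 < c ⬝ᵥ g ∧ Z g = s with hS
  have hch : ∀ s : Finset ι, ∃ g, s ∈ S → (Ex a b x g ∧ 0 < c ⬝ᵥ g ∧ Z g = s) := by
    intro s
    by_cases hs : s ∈ S
    · obtain ⟨g, hg⟩ := (Finset.mem_filter.1 hs).2
      exact ⟨g, fun _ => hg⟩
    · exact ⟨0, fun h => absurd h hs⟩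
  choose G hG using hch
  obtain ⟨z, hz, hcz⟩ := hno
  obtain ⟨g0, hg0, h0⟩ := exists_ex hx hz hcz
  have hmemS : ∀ g, Ex a b x g → 0 < c ⬝ᵥ g → Z g ∈ S := fun g h1 h2 =>
    Finset.mem_filter.2 ⟨Finset.mem_powerset.2 (Finset.filter_subset _ _), g, h1, h2, rfl⟩
  obtain ⟨s, hs, hmax⟩ := Finset.exists_max_image S
    (fun s => (c ⬝ᵥ G s) / (f ⬝ᵥ G s)) ⟨_, hmemS g0 hg0 h0⟩
  obtain ⟨h1, h2, -⟩ := hG s hs
  have h3 := hpos _ h1 h2
  refine ⟨G s, h1, h2, h3, fun z hz => ?_⟩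
  -- the slope of every improving direction
  have hslope : ∀ g, Ex a b x g → 0 < c ⬝ᵥ g → (c ⬝ᵥ g) * (f ⬝ᵥ G s) ≤ (c ⬝ᵥ G s) * (f ⬝ᵥ g) := by
    intro g hg hcg
    have e1 := hmemS g hg hcg
    obtain ⟨e2, e3, e4⟩ := hG _ e1
    obtain ⟨u, hu, hgu⟩ := e2.parallel hx hg fun i hi h0 => by
      have : i ∈ Z (G (Z g)) := Finset.mem_filter.2 ⟨hi, h0⟩
      rw [e4] at this
      exact (Finset.mem_filter.1 this).2
    have e5 := hmax _ e1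
    have e6 := hpos _ e2 e3
    rw [div_le_div_iff₀ e6 h3] at e5
    have e7 : c ⬝ᵥ g = u * (c ⬝ᵥ G (Z g)) := by
      conv_lhs => rw [hgu]
      rw [dotProduct_smul, smul_eq_mul]
    have e8 : f ⬝ᵥ g = u * (f ⬝ᵥ G (Z g)) := by
      conv_lhs => rw [hgu]
      rw [dotProduct_smul, smul_eq_mul]
    rw [e7, e8]
    have := mul_le_mul_of_nonneg_left e5 hu.le
    linarith
  by_contra hcon
  push Not at hcon
  obtain ⟨g, hg, hpg⟩ := exists_ex hx hz (p := (f ⬝ᵥ G s) • c - (c ⬝ᵥ G s) • f) (by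
    simp only [sub_dotProduct, smul_dotProduct, smul_eq_mul, dotProduct_sub] at hcon ⊢
    linarith)
  simp only [sub_dotProduct, smul_dotProduct, smul_eq_mul] at hpg
  rcases lt_or_ge 0 (c ⬝ᵥ g) with h4 | h4
  · have := hslope g hg h4
    linarith
  · have h5 : f ⬝ᵥ g < 0 := by
      by_contra hc
      push Not at hc
      have e1 := mul_nonneg h2.le hc
      have e2 := mul_nonpos_of_nonneg_of_nonpos h3.le h4
      linarith
    have h6 := hfeas ((f ⬝ᵥ G s) • g + (-(f ⬝ᵥ g)) • G s) (fun i hi => by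
      rw [dotProduct_add, dotProduct_smul, dotProduct_smul, smul_eq_mul, smul_eq_mul]
      have e1 := mul_nonpos_of_nonneg_of_nonpos h3.le (hg.le i hi)
      have e2 := mul_nonpos_of_nonneg_of_nonpos (show (0 : ℝ) ≤ -(f ⬝ᵥ g) by linarith) (h1.le i hi)
      linarith) (by
      rw [dotProduct_add, dotProduct_smul, dotProduct_smul, smul_eq_mul, smul_eq_mul]
      linarith)
    rw [dotProduct_add, dotProduct_smul, dotProduct_smul, smul_eq_mul, smul_eq_mul] at h6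
    linarith

/-! ### Faces -/

variable {r : ℕ}

/-- the points of `P` at which the functionals `f i`, `j ≤ i`, have the same values as at `v` -/
def Fc (P : Set (Fin n → ℝ)) (f : Fin r → Fin n → ℝ) (v : Fin n → ℝ) (j : ℕ) :
    Set (Fin n → ℝ) :=
  {z | z ∈ P ∧ ∀ i : Fin r, j ≤ i → f i ⬝ᵥ z = f i ⬝ᵥ v}

theorem fc_mono {P : Set (Fin n → ℝ)} {f : Fin r → Fin n → ℝ} {v : Fin n → ℝ} {j k : ℕ}
    (hjk : j ≤ k) (h : z ∈ Fc P f v j) : z ∈ Fc P f v k :=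
  ⟨h.1, fun i hi => h.2 i (hjk.trans hi)⟩

/-- the rows of the face -/
def ra (a : ι → Fin n → ℝ) (f : Fin r → Fin n → ℝ) (j : ℕ) : ι ⊕ Fin r → Fin n → ℝ :=
  Sum.elim a fun i => if j ≤ (i : ℕ) then f i else 0

/-- the right hand side of the face -/
def rb (b : ι → ℝ) (f : Fin r → Fin n → ℝ) (v : Fin n → ℝ) (j : ℕ) : ι ⊕ Fin r → ℝ :=
  Sum.elim b fun i => if j ≤ (i : ℕ) then f i ⬝ᵥ v else 0

variable {f : Fin r → Fin n → ℝ} {v : Fin n → ℝ} {j : ℕ}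

omit [Fintype ι] in
theorem mem_face (hf : ∀ i, ∀ z ∈ Ply a b, f i ⬝ᵥ v ≤ f i ⬝ᵥ z) :
    z ∈ Ply (ra a f j) (rb b f v j) ↔ z ∈ Fc (Ply a b) f v j := by
  constructor
  · intro h
    have h1 : z ∈ Ply a b := fun i => h (Sum.inl i)
    refine ⟨h1, fun i hi => le_antisymm ?_ (hf i z h1)⟩
    have h2 := h (Sum.inr i)
    simp only [ra, rb, Sum.elim_inr, if_pos hi] at h2
    exact h2
  · rintro ⟨h1, h2⟩ (i | i)
    · exact h1 i
    · simp only [ra, rb, Sum.elim_inr]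
      by_cases hi : j ≤ (i : ℕ)
      · rw [if_pos hi, if_pos hi]
        exact (h2 i hi).le
      · rw [if_neg hi, if_neg hi, zero_dotProduct]

theorem inl_mem {i : ι} : (Sum.inl i : ι ⊕ Fin r) ∈ tg (ra a f j) (rb b f v j) x ↔ i ∈ tg a b x := by
  rw [mem_tg, mem_tg]
  rfl

theorem vert_face (hf : ∀ i, ∀ z ∈ Ply a b, f i ⬝ᵥ v ≤ f i ⬝ᵥ z) (hx : Vert a b x)
    (hxF : x ∈ Fc (Ply a b) f v j) : Vert (ra a f j) (rb b f v j) x := by
  refine ⟨(mem_face hf).2 hxF, fun h hh => hx.ker h fun i hi => ?_⟩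
  exact hh (Sum.inl i) (inl_mem.2 hi)

/-- extreme directions of the face are extreme directions -/
theorem ex_face (hf : ∀ i, ∀ z ∈ Ply a b, f i ⬝ᵥ v ≤ f i ⬝ᵥ z) (hx : Vert a b x)
    (hxF : x ∈ Fc (Ply a b) f v j) {g : Fin n → ℝ} (hg : Ex (ra a f j) (rb b f v j) x g) :
    Ex a b x g ∧ ∀ i : Fin r, j ≤ i → f i ⬝ᵥ g = 0 := by
  classical
  have hl : ∀ i ∈ tg a b x, (Sum.inl i : ι ⊕ Fin r) ∈ tg (ra a f j) (rb b f v j) x := fun i hi =>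
    inl_mem.2 hi
  have hle : ∀ i ∈ tg a b x, a i ⬝ᵥ g ≤ 0 := fun i hi => hg.le _ (hl i hi)
  -- feasible directions do not decrease the functionals
  have hfeas : ∀ h : Fin n → ℝ, (∀ i ∈ tg a b x, a i ⬝ᵥ h ≤ 0) → ∀ i : Fin r, j ≤ i →
      0 ≤ f i ⬝ᵥ h := by
    intro h h1 i hi
    obtain ⟨t, ht, h3⟩ := exists_small hx.mem h1
    have h4 := hf i _ h3
    rw [dotProduct_add, dotProduct_smul, smul_eq_mul, hxF.2 i hi] at h4
    by_contra hcon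
    push Not at hcon
    have := mul_neg_of_pos_of_neg ht hcon
    linarith
  have hfg : ∀ i : Fin r, j ≤ i → f i ⬝ᵥ g = 0 := by
    intro i hi
    refine le_antisymm ?_ (hfeas g hle i hi)
    have h1 : (Sum.inr i : ι ⊕ Fin r) ∈ tg (ra a f j) (rb b f v j) x := by
      rw [mem_tg]
      simp only [ra, rb, Sum.elim_inr, if_pos hi]
      exact hxF.2 i hi
    have h2 := hg.le _ h1
    simp only [ra, Sum.elim_inr, if_pos hi] at h2
    exact h2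
  refine ⟨⟨hg.ne, hle, fun h hh => ?_⟩, hfg⟩
  -- the functionals vanish on `h`
  have key : ∀ u : Fin n → ℝ, (∀ i ∈ tg a b x, a i ⬝ᵥ g = 0 → a i ⬝ᵥ u = 0) →
      ∀ i : Fin r, j ≤ i → 0 ≤ f i ⬝ᵥ u := by
    intro u hu i hi
    obtain ⟨t, ht, h1⟩ : ∃ t : ℝ, 0 < t ∧ ∀ i ∈ tg a b x, a i ⬝ᵥ (g + t • u) ≤ 0 := by
      by_cases hex : ∃ i ∈ tg a b x, 0 < a i ⬝ᵥ u
      · obtain ⟨t, ht, h1, -⟩ := Pool.Agent.Q330.TU.exists_block hle hu hex
        exact ⟨t, ht, h1⟩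
      · push Not at hex
        refine ⟨1, one_pos, fun i hi => ?_⟩
        rw [dotProduct_add, dotProduct_smul, one_smul]
        have := hle i hi
        have := hex i hi
        linarith
    have h2 := hfeas _ h1 i hi
    rw [dotProduct_add, hfg i hi, zero_add, dotProduct_smul, smul_eq_mul] at h2
    by_contra hcon
    push Not at hcon
    have := mul_neg_of_pos_of_neg ht hcon
    linarith
  have hfh : ∀ i : Fin r, j ≤ i → f i ⬝ᵥ h = 0 := by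
    intro i hi
    have e1 := key h hh i hi
    have e2 := key (-h) (fun i hi h0 => by rw [dotProduct_neg, hh i hi h0, neg_zero]) i hi
    rw [dotProduct_neg] at e2
    linarith
  refine hg.ext h ?_
  rintro (i | i) hi h0
  · exact hh i (inl_mem.1 hi) h0
  · simp only [ra, Sum.elim_inr]
    by_cases hi : j ≤ (i : ℕ)
    · rw [if_pos hi]
      exact hfh i hi
    · rw [if_neg hi, zero_dotProduct]

/-- **A step on a face.** -/
theorem face_step (hf : ∀ i, ∀ z ∈ Ply a b, f i ⬝ᵥ v ≤ f i ⬝ᵥ z) (hx : Vert a b x)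
    (hxF : x ∈ Fc (Ply a b) f v j) {c p : Fin n → ℝ}
    (hM : ∀ z ∈ Fc (Ply a b) f v j, p ⬝ᵥ z ≤ p ⬝ᵥ x → c ⬝ᵥ z ≤ c ⬝ᵥ x)
    (hno : ∃ z ∈ Fc (Ply a b) f v j, c ⬝ᵥ x < c ⬝ᵥ z) :
    ∃ g, Ex a b x g ∧ (∀ i : Fin r, j ≤ i → f i ⬝ᵥ g = 0) ∧ 0 < c ⬝ᵥ g ∧ 0 < p ⬝ᵥ g ∧
      ∀ z ∈ Fc (Ply a b) f v j, (c ⬝ᵥ (z - x)) * (p ⬝ᵥ g) ≤ (c ⬝ᵥ g) * (p ⬝ᵥ (z - x)) := by
  obtain ⟨z, hz, hcz⟩ := hno
  obtain ⟨g, h1, h2, h3, h4⟩ := sh_step (vert_face hf hx hxF) (c := c) (f := p)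
    (fun z hz => hM z ((mem_face hf).1 hz)) ⟨z, (mem_face hf).2 hz, hcz⟩
  obtain ⟨h5, h6⟩ := ex_face hf hx hxF h1
  exact ⟨g, h5, h6, h2, h3, fun z hz => h4 z ((mem_face hf).2 hz)⟩

end Pool.Agent.Q330.LV
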